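import Pool.Agent.H8.DI.Targets
import Pool.Agent.H16.TO.Targets

/-!
# DI: the dichotomy
-/

set_option autoImplicit false

namespace Pool.Agent.H69.DI

open Pool.Agent.H69.Sp Pool.Agent.H8.DI Pool.Agent.H16.TO

theorem le_pow {n r : ℕ} (hn : 0 < n) (hr : 0 < r) : n ≤ n ^ r :=
  Nat.le_self_pow hr.ne' n

theorem pf_di (hTM : K_TM) (hHD : K_HD) (hSK : K_SK) (hPB : K_PB)
    (hPB2 : Pool.Agent.H16.TO.T_PB) (hPO : K_PO) : K_DI := by
  obtain ⟨hp1, hp2, hp3, -⟩ := hPO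
  have hpol : ∀ N : ℕ, ((pol N : ℕ) : ℤ) = 4 * (N : ℤ) ^ 3 + (N : ℤ) ^ 2 - N := by
    intro N
    have h1 := hp1 N
    rw [hp2 N] at h1
    have h2 : ((pol N : ℕ) : ℤ) + N = 4 * (N : ℤ) ^ 3 + (N : ℤ) ^ 2 := by exact_mod_cast h1
    linarith
  intro l τ
  refine ⟨fun hl φ => hTM l τ φ hl, fun hl => ⟨?_, ?_⟩⟩
  · intro S hS
    obtain ⟨φ, r, hr, h | h⟩ := hHD l τ hl S hS
    · refine ⟨φ, 2 * Polynomial.C (r : ℤ) * Polynomial.X ^ r, fun n hn => ?_⟩
      refine ⟨2 * r * n ^ r, ?_, ?_, h n hn⟩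
      · simp
      · have h1 := le_pow hn hr
        have h2 : 1 ≤ 2 * r := by omega
        calc n ≤ n ^ r := h1
          _ = 1 * n ^ r := (one_mul _).symm
          _ ≤ 2 * r * n ^ r := Nat.mul_le_mul_right _ h2
    · refine ⟨φ, 4 * (Polynomial.X ^ r) ^ 3 + (Polynomial.X ^ r) ^ 2 - Polynomial.X ^ r,
        fun n hn => ?_⟩
      refine ⟨pol (n ^ r), ?_, ?_, h n hn⟩
      · rw [hpol]
        simp
      · exact (le_pow hn hr).trans (hp3 _)
  · constructor
    · exact fun h φ => h _ (hSK l τ φ)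
    · intro h S hS
      obtain ⟨φ, r, hr, h1 | h1⟩ := hHD l τ hl S hS
      · have h2 := hPB2 _ (h φ) (2 * r) r (by omega) hr
        have h3 : {n | 0 < n ∧ 2 * r * n ^ r ∈ posCompl (specK l τ φ)} = posCompl S := by
          ext n
          constructor
          · rintro ⟨hn, hn2⟩
            exact ⟨hn, fun hS => hn2.2 ((h1 n hn).1 hS)⟩
          · rintro ⟨hn, hn2⟩
            refine ⟨hn, ?_, fun h4 => hn2 ((h1 n hn).2 h4)⟩
            exact Nat.mul_pos (by omega) (pow_pos hn r)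
        rwa [h3] at h2
      · have h2 := hPB _ (h φ) r hr
        have h3 : {n | 0 < n ∧ pol (n ^ r) ∈ posCompl (specK l τ φ)} = posCompl S := by
          ext n
          constructor
          · rintro ⟨hn, hn2⟩
            exact ⟨hn, fun hS => hn2.2 ((h1 n hn).1 hS)⟩
          · rintro ⟨hn, hn2⟩
            refine ⟨hn, ?_, fun h4 => hn2 ((h1 n hn).2 h4)⟩
            exact lt_of_lt_of_le (pow_pos hn r) (hp3 _)
        rwa [h3] at h2

end Pool.Agent.H69.DI
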