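import Pool.Agent.H8.DI.Targets

/-!
# DO: the axioms for a linear order and an equivalence relation are definable
-/

set_option autoImplicit false

namespace Pool.Agent.H69.DI

open Pool.Agent.H16.TO Pool.Agent.H8.DI

/-- the counting conditions -/
inductive Ix : Type
  | one (c : Bool) : Ix
  | mat (j : Fin 4) : Ix
  | mat' (j : Fin 4) : Ix
  | fx0 : Ix
  | fy0 : Ix
  | cor : Ix
  | sp : Ix
  | sx : Ix
  | bot : Ix
  | top : Ix
  | lin (j : Fin 4) : Ix
  | lin' (j : Fin 4) : Ix
  | lio (j : Fin 4) : Ix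
  | lio' (j : Fin 4) : Ix

/-- a code of the conditions -/
def Ix.code : Ix → Fin 14 × Fin 4 × Bool
  | .one c => (0, 0, c)
  | .mat j => (1, j, true)
  | .mat' j => (2, j, true)
  | .fx0 => (3, 0, true)
  | .fy0 => (4, 0, true)
  | .cor => (5, 0, true)
  | .sp => (6, 0, true)
  | .sx => (7, 0, true)
  | .bot => (8, 0, true)
  | .top => (9, 0, true)
  | .lin j => (10, j, true)
  | .lin' j => (11, j, true)
  | .lio j => (12, j, true)
  | .lio' j => (13, j, true)

instance : Finite Ix := by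
  refine Finite.of_injective Ix.code ?_
  intro a b h
  cases a <;> cases b <;> simp [Ix.code] at h <;> simp [h]

section
variable {Q : Type}

/-- the states -/
abbrev Se (Q : Type) : Type := El Q × Bool

/-- the conditions for pairs -/
def chi (U : Bool → Bool → Bool → Bool → Q → Prop) (Hh Vv : Q → Q → Prop) : Pr2 (Se Q) 6 :=
  fun s s' f _ e =>
    (f 1 → Same s.1 s'.1) ∧
    (s.1.k = 0 → s.1.c = false → s.1.fx = true → s.1.z = true) ∧
    (s.1.k = 0 → s.1.c = true → s.1.fy = true → s.1.z = true) ∧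
    U s.1.fx s.1.lx s.1.fy s.1.ly s.1.q ∧
    (f 3 → f 0) ∧ (f 0 → s.2 = false) ∧ (f 3 → head s'.1 → s.1.k = 3) ∧
    (f 3 → ¬ head s'.1 → s.1.k ≤ s'.1.k ∧ (s.1.k = s'.1.k → f 1 ∧ ¬ fst s'.1) ∧
      (s.1.k ≠ s'.1.k → fst s'.1)) ∧
    (f 1 → s.1.k = s'.1.k → fst s.1 → fst s'.1 → e) ∧
    (f 1 → head s.1 → s'.1.k = 3 → f 0) ∧
    (f 0 → f 4 → s.1.k = 0 → s'.1.k = 1 → Hh s.1.q s'.1.q ∧ s'.1.fy = s.1.fy ∧ s'.1.ly = s.1.ly) ∧
    (f 0 → f 4 → s.1.k = 0 → s'.1.k = 2 → Vv s.1.q s'.1.q ∧ s'.1.fx = s.1.fx ∧ s'.1.lx = s.1.lx)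

/-- the premise -/
def sig : Ix → Se Q → Prop
  | .one _, _ => True
  | .mat j, s => j ≠ 0 ∧ src j s.1
  | .mat' j, s => j ≠ 0 ∧ s.1.k = j
  | .fx0, s => s.1.fx = false
  | .fy0, s => s.1.fy = false
  | .cor, _ => True
  | .sp, _ => True
  | .sx, s => s.2 = false
  | .bot, s => ¬ head s.1
  | .top, s => s.1.k ≠ 3
  | .lin j, s => (j = 1 ∨ j = 2) ∧ lnk 0 j s.1
  | .lin' j, s => (j = 1 ∨ j = 2) ∧ s.1.k = j
  | .lio j, s => (j = 1 ∨ j = 2) ∧ s.1.k = j
  | .lio' j, s => (j = 1 ∨ j = 2) ∧ lnk 3 j s.1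

/-- the counted condition -/
def gg : Ix → Pr2 (Se Q) 6
  | .one c => fun _ s' f _ _ => f 1 ∧ s'.1.k = 0 ∧ s'.1.c = c ∧ s'.1.z = true
  | .mat j => fun s s' f _ _ => f 1 ∧ f 2 ∧ s'.1.k = j ∧ s'.1.c = s.1.c
  | .mat' j => fun s s' _ g _ => g 1 ∧ g 2 ∧ src j s'.1 ∧ s'.1.c = s.1.c
  | .fx0 => fun _ s' f _ _ => f 1 ∧ s'.1.k = 0 ∧ s'.1.c = false ∧ s'.1.z = false
  | .fy0 => fun _ s' f _ _ => f 1 ∧ s'.1.k = 0 ∧ s'.1.c = true ∧ s'.1.z = false
  | .cor => fun _ s' _ _ _ => head s'.1 ∧ s'.1.fx = true ∧ s'.1.fy = true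
  | .sp => fun _ _ _ g _ => g 3
  | .sx => fun _ _ f _ _ => f 3
  | .bot => fun _ _ _ g _ => g 3
  | .top => fun _ _ f _ _ => f 3
  | .lin j => fun s s' f _ _ => f 0 ∧ f 4 ∧ s'.1.k = j ∧ s'.1.c = s.1.c
  | .lin' j => fun s s' _ g _ => g 0 ∧ g 4 ∧ lnk 0 j s'.1 ∧ s'.1.c = s.1.c
  | .lio j => fun s s' f _ _ => f 0 ∧ f 5 ∧ lnk 3 j s'.1 ∧ s'.1.c = s.1.c
  | .lio' j => fun s s' _ g _ => g 0 ∧ g 5 ∧ s'.1.k = j ∧ s'.1.c = s.1.c

/-- the modes -/
def md : Ix → Md
  | .fx0 => .ex
  | .fy0 => .ex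
  | .sp => .am
  | .sx => .ex
  | .bot => .ex
  | .top => .ex
  | _ => .one

/-- the relations -/
def rels {V : Type} (lt E M S N N' : V → V → Prop) : ℕ → V → V → Prop
  | 0 => lt
  | 1 => E
  | 2 => M
  | 3 => S
  | 4 => N
  | 5 => N'
  | _ => fun _ _ => False

theorem succ_conv {V : Type} [Finite V] {lt S : V → V → Prop} (h : IsStrictTotalOrder V lt)
    (hS : IsSucc lt S) : (∀ x x' y, S x y → S x' y → x = x') ∧
      ∀ x, (∃ y, lt x y) → ∃ y, S x y := by
  constructor
  · intro x x' y h1 h2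
    rcases trichotomous_of lt x x' with h3 | h3 | h3
    · exact absurd ⟨h3, ((hS x' y).1 h2).1⟩ (((hS x y).1 h1).2 x')
    · exact h3
    · exact absurd ⟨h3, ((hS x y).1 h1).1⟩ (((hS x' y).1 h2).2 x)
  · rintro x ⟨y, hy⟩
    have hwf : WellFounded lt := Finite.wellFounded_of_trans_of_irrefl lt
    obtain ⟨z, hz, hmin⟩ := hwf.has_min {y | lt x y} ⟨y, hy⟩
    exact ⟨z, (hS x z).2 ⟨hz, fun c hc => hmin c hc.1 hc.2⟩⟩

end

theorem pf_do (hDF : K_DF) (hSU : K_SU) : K_DO := by
  classical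
  intro Q _ U Hh Vv
  obtain ⟨φ, hφ⟩ := hDF (Se Q) 6 (chi U Hh Vv) Ix sig gg md
  refine ⟨φ, fun V _ _ lt E hlt hE => ?_⟩
  constructor
  · rintro ⟨P, R, hR0, hR1, hP⟩
    obtain ⟨st, h1, h2⟩ := (hφ V R).1 ⟨P, hP⟩
    have e0 : ∀ x y, R 0 x y = lt x y := fun x y => by rw [hR0]
    have e1 : ∀ x y, R 1 x y = E x y := fun x y => by rw [hR1]
    have h1' : ∀ x y, chi U Hh Vv (st x) (st y) (fun i => R i x y) (fun i => R i y x) (x = y) := h1
    refine ⟨fun x => (st x).1, R 2, R 3, R 4, R 5, ?_, ?_⟩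
    · refine
        { eqv := hE
          same := fun x y h => (h1' x y).1 (by rw [← e1] at h; exact h)
          one := fun x c => ?_
          mat := fun j hj x hx => ?_
          mat' := fun j hj y hy => ?_
          fx1 := fun x => (h1' x x).2.1
          fx0 := fun x hx => ?_
          fy1 := fun x => (h1' x x).2.2.1
          fy0 := fun x hx => ?_
          un := fun x => (h1' x x).2.2.2.1
          cor := ?_ }
      · have h3 := h2 (.one c) x trivial
        simp only [← e1]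
        exact h3
      · have h3 := h2 (.mat j) x ⟨hj, hx⟩
        simp only [← e1]
        exact h3
      · have h3 := h2 (.mat' j) y ⟨hj, hy⟩
        simp only [← e1]
        exact h3
      · have h3 := h2 .fx0 x hx
        simp only [← e1]
        exact h3
      · have h3 := h2 .fy0 x hx
        simp only [← e1]
        exact h3
      · have h3 := h2 .cor (Classical.arbitrary V) trivial
        exact h3
    · have hs : IsSucc lt (R 3) := by
        refine hSU V lt (R 3) hlt ?_ ?_ ?_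
        · intro x y h
          rw [← e0]
          exact (h1' x y).2.2.2.2.1 h
        · intro x x' y h h'
          exact h2 .sp y trivial x x' h h'
        · rintro x ⟨y, hy⟩
          rw [← e0] at hy
          exact h2 .sx x ((h1' x y).2.2.2.2.2.1 hy)
      refine
        { tot := hlt
          suc := hs
          bot := fun x hx => ?_
          top := fun x hx => ?_
          sh := fun x y => (h1' x y).2.2.2.2.2.2.1
          sn := fun x y h h' => ?_
          uni := fun y y' h => (h1' y y').2.2.2.2.2.2.2.2.1 (by rw [← e1] at h; exact h)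
          up := fun x y h h' h'' => ?_
          lin := fun j hj x hx => ?_
          lin' := fun j hj y hy => ?_
          lio := fun j hj y hy => ?_
          lio' := fun j hj x hx => ?_
          ho := fun x y h => (h1' x y).2.2.2.2.2.2.2.2.2.2.1 (by rw [← e0] at h; exact h)
          ve := fun x y h => (h1' x y).2.2.2.2.2.2.2.2.2.2.2 (by rw [← e0] at h; exact h) }
      · by_contra hc
        obtain ⟨y, hy⟩ := h2 .bot x hc
        exact hx y hy
      · by_contra hc
        obtain ⟨y, hy⟩ := h2 .top x hc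
        exact hx y hy
      · have h3 := (h1' x y).2.2.2.2.2.2.2.1 h h'
        rw [← e1]
        exact h3
      · rw [← e0]
        rw [← e1] at h
        exact (h1' x y).2.2.2.2.2.2.2.2.2.1 h h' h''
      · have h3 := h2 (.lin j) x ⟨hj, hx⟩
        simp only [← e0]
        exact h3
      · have h3 := h2 (.lin' j) y ⟨hj, hy⟩
        simp only [← e0]
        exact h3
      · have h3 := h2 (.lio j) y ⟨hj, hy⟩
        simp only [← e0]
        exact h3
      · have h3 := h2 (.lio' j) x ⟨hj, hx⟩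
        simp only [← e0]
        exact h3
  · rintro ⟨st, M, S, N, N', hC, hO⟩
    obtain ⟨hs1, hs2⟩ := succ_conv hO.tot hO.suc
    have h1 : ∃ st' : V → Se Q, (∀ x y, (chi U Hh Vv).ev st' (rels lt E M S N N') x y) ∧
        ∀ i x, sig i (st' x) → (md i).Holds (fun y => (gg i).ev st' (rels lt E M S N N') x y) := by
      refine ⟨fun x => (st x, decide (∀ y, ¬ lt x y)), ?_, ?_⟩
      · intro x y
        refine ⟨hC.same x y, hC.fx1 x, hC.fy1 x, hC.un x, fun h => ((hO.suc x y).1 h).1, ?_,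
          hO.sh x y, hO.sn x y, hO.uni x y, hO.up x y, hO.ho x y, hO.ve x y⟩
        intro h
        show decide (∀ y, ¬ lt x y) = false
        rw [decide_eq_false_iff_not]
        exact fun h3 => h3 y h
      · intro i x hi
        cases i with
        | one c => exact hC.one x c
        | mat j => exact hC.mat j hi.1 x hi.2
        | mat' j => exact hC.mat' j hi.1 x hi.2
        | fx0 => exact hC.fx0 x hi
        | fy0 => exact hC.fy0 x hi
        | cor => exact hC.cor
        | sp => exact fun y y' h h' => hs1 y y' x h h'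
        | sx =>
          have h3 : decide (∀ y, ¬ lt x y) = false := hi
          rw [decide_eq_false_iff_not] at h3
          push Not at h3
          exact hs2 x h3
        | bot =>
          have h3 : ¬ head (st x) := hi
          by_contra hc
          exact h3 (hO.bot x fun y hy => hc ⟨y, hy⟩)
        | top =>
          have h3 : (st x).k ≠ 3 := hi
          by_contra hc
          exact h3 (hO.top x fun y hy => hc ⟨y, hy⟩)
        | lin j => exact hO.lin j hi.1 x hi.2
        | lin' j => exact hO.lin' j hi.1 x hi.2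
        | lio j => exact hO.lio j hi.1 x hi.2
        | lio' j => exact hO.lio' j hi.1 x hi.2
    obtain ⟨P, hP⟩ := (hφ V (rels lt E M S N N')).2 h1
    exact ⟨P, rels lt E M S N N', rfl, rfl, hP⟩

end Pool.Agent.H69.DI
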