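import Pool.Agent.H8.DI.Targets
import Pool.Agent.H8.VR.Cor

/-!
# TM: at most one special relation
-/

set_option autoImplicit false

namespace Pool.Agent.H69.DI

open Pool.Agent.H69.Sp Pool.Agent.H8.DI

/-- translation with renaming of the binary relations -/
def trC (g : ℕ → ℕ) : Pool.Agent.H16.TO.C2 → Pool.Agent.H8.VR.C2
  | .un i v => .un i v
  | .bi i v w => .bi (g i) v w
  | .eq v w => .eq v w
  | .neg φ => .neg (trC g φ)
  | .and φ ψ => .and (trC g φ) (trC g ψ)
  | .cnt k v φ => .cnt k 1 0 v (trC g φ)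

theorem trC_sat {A : Type} (g : ℕ → ℕ) (P : ℕ → A → Prop) (R : ℕ → A → A → Prop)
    (φ : Pool.Agent.H16.TO.C2) : ∀ s : Bool → A,
      (trC g φ).Sat P R s ↔ φ.Sat P (fun i => R (g i)) s := by
  induction φ with
  | un i v => exact fun s => Iff.rfl
  | bi i v w => exact fun s => Iff.rfl
  | eq v w => exact fun s => Iff.rfl
  | neg φ ih => exact fun s => not_congr (ih s)
  | and φ ψ ih1 ih2 => exact fun s => and_congr (ih1 s) (ih2 s)
  | cnt k v φ ih =>
    intro s
    show k ≤ {a | (trC g φ).Sat P R (Function.update s v a)}.ncard ∧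
      {a | (trC g φ).Sat P R (Function.update s v a)}.ncard ≡ 0 [MOD 1] ↔
      k ≤ {a | φ.Sat P (fun i => R (g i)) (Function.update s v a)}.ncard
    have h1 : {a | (trC g φ).Sat P R (Function.update s v a)} =
        {a | φ.Sat P (fun i => R (g i)) (Function.update s v a)} := by
      ext a
      exact ih _
    rw [h1]
    exact ⟨fun h => h.1, fun h => ⟨h, Nat.modEq_one⟩⟩

/-- a formula which is always true -/
def tau : Pool.Agent.H69.VR.MS := .eq 0 0

theorem tau_sat {A : Type} (P : ℕ → A → Prop) (R : ℕ → A → A → Prop) (e : ℕ → A)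
    (V : ℕ → Set A) : tau.Sat P R e V := rfl

theorem tau_below (m : ℕ) : tau.Below m := trivial

/-- no special relation -/
theorem eq0 (τ : ℕ → Kd) (φ : Pool.Agent.H16.TO.C2) :
    specK 0 τ φ = Pool.Agent.H8.VR.specEM 0 tau (trC id φ) := by
  ext n
  constructor
  · rintro ⟨hn, P, R, -, h⟩
    refine ⟨hn, P, R, ⟨fun i hi => absurd hi (Nat.not_lt_zero i),
      fun i hi => absurd hi (Nat.not_lt_zero _)⟩, fun e V => rfl, fun s => ?_⟩
    exact (trC_sat id P R φ s).2 (h s)
  · rintro ⟨hn, P, R, -, -, h⟩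
    exact ⟨hn, P, R, fun j hj => absurd hj (Nat.not_lt_zero j),
      fun s => (trC_sat id P R φ s).1 (h s)⟩

/-- an equivalence relation -/
theorem eqE (τ : ℕ → Kd) (hτ : τ 0 = Kd.eqv) (φ : Pool.Agent.H16.TO.C2) :
    specK 1 τ φ = Pool.Agent.H8.VR.specEM 1 tau (trC id φ) := by
  ext n
  constructor
  · rintro ⟨hn, P, R, hR, h⟩
    refine ⟨hn, P, R, ⟨fun i hi => ?_, fun i hi => ?_⟩, fun e V => rfl, fun s => ?_⟩
    · have hi0 : i = 0 := by omega
      subst hi0
      have h1 := hR 0 (by omega)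
      rw [hτ] at h1
      exact h1
    · omega
    · exact (trC_sat id P R φ s).2 (h s)
  · rintro ⟨hn, P, R, hR, -, h⟩
    refine ⟨hn, P, R, fun j hj => ?_, fun s => (trC_sat id P R φ s).1 (h s)⟩
    have hj0 : j = 0 := by omega
    subst hj0
    rw [hτ]
    exact hR.1 0 (by omega)

/-- the relations with an empty relation `0` -/
def shE {A : Type} (R : ℕ → A → A → Prop) : ℕ → A → A → Prop
  | 0 => fun _ _ => False
  | i + 1 => R i

/-- a linear order -/
theorem eqO (τ : ℕ → Kd) (hτ : τ 0 = Kd.ord) (φ : Pool.Agent.H16.TO.C2) :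
    specK 1 τ φ = Pool.Agent.H8.VR.specFM tau (trC Nat.succ φ) := by
  ext n
  constructor
  · rintro ⟨hn, P, R, hR, h⟩
    have h1 := hR 0 (by omega)
    rw [hτ] at h1
    refine ⟨hn, P, shE R, ⟨h1, fun a b hab => absurd hab id, fun a b c hab => absurd hab id,
      fun a b c hac => absurd hac id⟩, fun e V => rfl, fun s => ?_⟩
    exact (trC_sat Nat.succ P (shE R) φ s).2 (h s)
  · rintro ⟨hn, P, R, hR, -, h⟩
    refine ⟨hn, P, fun i => R (i + 1), fun j hj => ?_,
      fun s => (trC_sat Nat.succ P R φ s).1 (h s)⟩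
    have hj0 : j = 0 := by omega
    subst hj0
    rw [hτ]
    exact hR.1

/-- the renaming for trees -/
def gT : ℕ → ℕ
  | 0 => 0
  | i + 1 => i + 2

/-- the relations with the document order as relation `1` -/
def shT {A : Type} (t : A → A → Prop) (R : ℕ → A → A → Prop) : ℕ → A → A → Prop
  | 0 => R 0
  | 1 => t
  | i + 2 => R (i + 1)

theorem shT_gT {A : Type} (t : A → A → Prop) (R : ℕ → A → A → Prop) :
    (fun i => shT t R (gT i)) = R := by
  funext i
  cases i <;> rfl

/-- a forest order -/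
theorem eqT (hDR : K_DR) (τ : ℕ → Kd) (hτ : τ 0 = Kd.tree) (φ : Pool.Agent.H16.TO.C2) :
    specK 1 τ φ = Pool.Agent.H8.VR.specFM tau (trC gT φ) := by
  ext n
  constructor
  · rintro ⟨hn, P, R, hR, h⟩
    have h1 := hR 0 (by omega)
    rw [hτ] at h1
    obtain ⟨t, ht1, ht2, ht3⟩ := hDR (Fin n) (R 0) h1
    refine ⟨hn, P, shT t R, ⟨ht1, ht2, h1.2.1, ht3⟩, fun e V => rfl, fun s => ?_⟩
    rw [trC_sat, shT_gT]
    exact h s
  · rintro ⟨hn, P, R, ⟨hR1, hR2, hR3, hR4⟩, -, h⟩
    refine ⟨hn, P, fun i => R (gT i), fun j hj => ?_, fun s => (trC_sat gT P R φ s).1 (h s)⟩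
    have hj0 : j = 0 := by omega
    subst hj0
    rw [hτ]
    refine ⟨fun a haa => hR1.irrefl a (hR2 a a haa), fun a b c => hR3 a b c, ?_⟩
    intro a b c hac hbc
    have hac' : R 0 a c := hac
    have hbc' : R 0 b c := hbc
    rcases trichotomous_of (R 1) a b with hab | hab | hab
    · exact Or.inr (Or.inl (hR4 a b c hac' hab (hR2 b c hbc')))
    · exact Or.inl hab
    · exact Or.inr (Or.inr (hR4 b a c hbc' hab (hR2 a c hac')))

theorem pf_tm (hDR : K_DR) (hA : Pool.Agent.H8.VR.T_ALL) : K_TM := by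
  intro l τ φ hl
  obtain ⟨-, -, hF, hE⟩ := hA
  have hl' : l = 0 ∨ l = 1 := by omega
  rcases hl' with rfl | rfl
  · rw [eq0]
    exact (hE 0 tau _ (tau_below 0)).2
  · cases hτ : τ 0 with
    | ord =>
      rw [eqO τ hτ]
      exact (hF tau _ (tau_below 2)).2
    | tree =>
      rw [eqT hDR τ hτ]
      exact (hF tau _ (tau_below 2)).2
    | eqv =>
      rw [eqE τ hτ]
      exact (hE 1 tau _ (tau_below 1)).2

end Pool.Agent.H69.DI
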